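import Pool.Agent.Y192.KC.Stm

/-!
# From punctured discs to entire curves and to morphisms from the multiplicative group (`St_exp`)
-/

set_option autoImplicit false

namespace Pool.Agent.Y496.KC

open MvPolynomial Metric Filter Topology
open Pool.Agent.Y192.KC

variable {n r : ℕ} {X : Cov n r} {m : ℕ}

/-- `1 / (a + 2 π i k)` -/
noncomputable def zk (a : ℂ) (k : ℕ) : ℂ := (a + k * (2 * Real.pi * Complex.I))⁻¹

theorem zk_tendsto (a : ℂ) : Tendsto (zk a) atTop (𝓝 0) := by
  unfold zk
  apply tendsto_inv₀_cobounded.comp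
  rw [← tendsto_norm_atTop_iff_cobounded]
  have h1 : Tendsto (fun k : ℕ => (k : ℝ) * (2 * Real.pi) - ‖a‖) atTop atTop := by
    apply tendsto_atTop_add_const_right
    exact tendsto_natCast_atTop_atTop.atTop_mul_const (by positivity)
  refine tendsto_atTop_mono (fun k => ?_) h1
  have h2 : ‖(k : ℂ) * (2 * Real.pi * Complex.I)‖ = (k : ℝ) * (2 * Real.pi) := by
    simp [abs_of_pos Real.pi_pos]
  have h3 := norm_sub_le (a + k * (2 * Real.pi * Complex.I)) a
  rw [add_sub_cancel_left, h2] at h3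
  linarith

theorem zk_ev_ne (a : ℂ) : ∀ᶠ k : ℕ in atTop, zk a k ≠ 0 := by
  have h : Tendsto (fun k : ℕ => (k : ℝ) * (2 * Real.pi) - ‖a‖) atTop atTop := by
    apply tendsto_atTop_add_const_right
    exact tendsto_natCast_atTop_atTop.atTop_mul_const (by positivity)
  filter_upwards [h.eventually_gt_atTop 0] with k hk
  unfold zk
  apply inv_ne_zero
  intro h0
  have h2 : ‖(k : ℂ) * (2 * Real.pi * Complex.I)‖ = (k : ℝ) * (2 * Real.pi) := by
    simp [abs_of_pos Real.pi_pos]
  have h3 := norm_sub_le (a + k * (2 * Real.pi * Complex.I)) a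
  rw [add_sub_cancel_left, h2, h0, norm_zero, zero_add] at h3
  linarith

theorem exp_zk (a : ℂ) (k : ℕ) : Complex.exp (zk a k)⁻¹ = Complex.exp a := by
  unfold zk
  rw [inv_inv, Complex.exp_add, Complex.exp_nat_mul_two_pi_mul_I, mul_one]

theorem dense_ne : Dense ({0}ᶜ : Set ℂ) := dense_compl_singleton 0

/-- a curve which is constant outside the origin, up to the scaling action -/
theorem const_of {u : ℂ → Fin (n + 1) → ℂ} {v : ℂ → Fin r → ℂ} (hu : Continuous u)
    (hv : Continuous v) (hne : ∀ z, u z ≠ 0) {a : Fin (n + 1) → ℂ} {b : Fin r → ℂ}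
    (ha : a ≠ 0) (h : ∀ y, y ≠ 0 → Same X m a b (u y) (v y)) :
    ∀ z z', Same X m (u z) (v z) (u z') (v z') := by
  obtain ⟨i, hi⟩ : ∃ i, a i ≠ 0 := by
    by_contra hc
    push Not at hc
    exact ha (funext hc)
  have hui : ∀ i, Continuous (fun y => u y i) := fun i => (continuous_apply i).comp hu
  have hvj : ∀ j, Continuous (fun y => v y j) := fun j => (continuous_apply j).comp hv
  have key : ∀ y, y ≠ 0 → (∀ i', u y i' = u y i / a i * a i') ∧
      ∀ j, v y j = (u y i / a i) ^ X.wt m j * b j := by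
    intro y hy
    obtain ⟨s, hs, h1, h2⟩ := h y hy
    have h3 : u y i / a i = s := by
      rw [h1 i]
      field_simp
    rw [h3]
    exact ⟨h1, h2⟩
  have key1 : ∀ y i', u y i' = u y i / a i * a i' := by
    intro y i'
    have := Continuous.ext_on dense_ne (hui i') (((hui i).div_const (a i)).mul_const (a i'))
      (fun y hy => (key y hy).1 i')
    exact congrFun this y
  have key2 : ∀ y j, v y j = (u y i / a i) ^ X.wt m j * b j := by
    intro y j
    have := Continuous.ext_on dense_ne (hvj j)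
      ((((hui i).div_const (a i)).pow (X.wt m j)).mul_const (b j)) (fun y hy => (key y hy).2 j)
    exact congrFun this y
  have key3 : ∀ y, u y i / a i ≠ 0 := by
    intro y h0
    apply hne y
    funext i'
    rw [key1 y i', h0, zero_mul]
    rfl
  intro z z'
  refine ⟨(u z' i / a i) / (u z i / a i), div_ne_zero (key3 z') (key3 z), ?_, ?_⟩
  · intro i'
    rw [key1 z' i', key1 z i', ← mul_assoc, div_mul_cancel₀ _ (key3 z)]
  · intro j
    rw [key2 z' j, key2 z j, ← mul_assoc, ← mul_pow, div_mul_cancel₀ _ (key3 z)]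

/-- the value at `0` of the extension of the map `z ↦ (u (exp (1 / z)), v (exp (1 / z)))` -/
theorem same_of_extends {u : ℂ → Fin (n + 1) → ℂ} {v : ℂ → Fin r → ℂ} (hne : ∀ z, u z ≠ 0)
    {ρ : ℝ} (hρ : 0 < ρ) {u' : ℂ → Fin (n + 1) → ℂ} {v' : ℂ → Fin r → ℂ}
    (hu' : ContinuousAt u' 0) (hv' : ContinuousAt v' 0) (h0 : u' 0 ≠ 0)
    (hs : ∀ z ∈ ball (0 : ℂ) ρ \ {0}, Same X m (u' z) (v' z) (u (Complex.exp z⁻¹))
      (v (Complex.exp z⁻¹))) (y : ℂ) (hy : y ≠ 0) : Same X m (u' 0) (v' 0) (u y) (v y) := by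
  obtain ⟨i, hi⟩ : ∃ i, u' 0 i ≠ 0 := by
    by_contra hc
    push Not at hc
    exact h0 (funext hc)
  set a := Complex.log y with ha
  have hz := zk_tendsto a
  have hz1 : ∀ᶠ k in atTop, zk a k ∈ ball (0 : ℂ) ρ := hz.eventually (ball_mem_nhds _ hρ)
  have hul : ∀ i', Tendsto (fun k => u' (zk a k) i') atTop (𝓝 (u' 0 i')) := fun i' =>
    ((continuous_apply i').continuousAt.tendsto.comp hu'.tendsto).comp hz
  have hvl : ∀ j, Tendsto (fun k => v' (zk a k) j) atTop (𝓝 (v' 0 j)) := fun j =>
    ((continuous_apply j).continuousAt.tendsto.comp hv'.tendsto).comp hz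
  have hi1 : ∀ᶠ k in atTop, u' (zk a k) i ≠ 0 := (hul i).eventually_ne hi
  have hev : ∀ᶠ k in atTop, (∀ i', u y i' = u y i / u' (zk a k) i * u' (zk a k) i') ∧
      ∀ j, v y j = (u y i / u' (zk a k) i) ^ X.wt m j * v' (zk a k) j := by
    filter_upwards [hz1, hi1, zk_ev_ne a] with k h1 h2 h3
    obtain ⟨s, hs0, h4, h5⟩ := hs (zk a k) ⟨h1, h3⟩
    have h7 : Complex.exp a = y := Complex.exp_log hy
    rw [exp_zk, h7] at h4 h5
    have h6 : u y i / u' (zk a k) i = s := by
      rw [h4 i]
      field_simp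
    rw [h6]
    exact ⟨h4, h5⟩
  have hsl : Tendsto (fun k => u y i / u' (zk a k) i) atTop (𝓝 (u y i / u' 0 i)) :=
    tendsto_const_nhds.div (hul i) hi
  have e1 : ∀ i', u y i' = u y i / u' 0 i * u' 0 i' := by
    intro i'
    refine tendsto_nhds_unique ?_ (hsl.mul (hul i'))
    refine tendsto_const_nhds.congr' ?_
    filter_upwards [hev] with k hk
    exact hk.1 i'
  have e2 : ∀ j, v y j = (u y i / u' 0 i) ^ X.wt m j * v' 0 j := by
    intro j
    refine tendsto_nhds_unique ?_ ((hsl.pow _).mul (hvl j))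
    refine tendsto_const_nhds.congr' ?_
    filter_upwards [hev] with k hk
    exact hk.2 j
  refine ⟨u y i / u' 0 i, ?_, e1, e2⟩
  intro h1
  apply hne y
  funext i'
  rw [e1 i', h1, zero_mul]
  rfl

theorem t_exp : St_exp := by
  intro n r X m _ _ L _ _ t w _
  constructor
  · rintro ⟨B, D, hB, hB0, hP⟩
    refine ⟨B, D, hB, hB0, ?_⟩
    intro u v hE z1
    by_contra hz1
    have hne : ∀ z, u z ≠ 0 := fun z => (hE.mem z).1
    have hcu := hE.diffu.continuous
    have hcv := hE.diffv.continuous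
    have hcb : Continuous (fun z => eval (Sum.elim (u z) (v z)) B) := by
      apply (MvPolynomial.continuous_eval B).comp
      apply continuous_pi
      rintro (i | j)
      · exact (continuous_apply i).comp hcu
      · exact (continuous_apply j).comp hcv
    obtain ⟨z2, hz2, hb2⟩ : ∃ z2 : ℂ, z2 ≠ 0 ∧ eval (Sum.elim (u z2) (v z2)) B ≠ 0 := by
      have hopen : IsOpen {z : ℂ | eval (Sum.elim (u z) (v z)) B ≠ 0} :=
        isOpen_ne_fun hcb continuous_const
      obtain ⟨z2, h2, h3⟩ := dense_ne.inter_open_nonempty _ hopen ⟨z1, hz1⟩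
      exact ⟨z2, h3, h2⟩
    have hexp : DifferentiableOn ℂ (fun z : ℂ => Complex.exp z⁻¹) (ball 0 1 \ {0}) := by
      intro z hz
      exact ((differentiableAt_inv hz.2).cexp).differentiableWithinAt
    have hD : Disc X m t w (fun z => u (Complex.exp z⁻¹)) (fun z => v (Complex.exp z⁻¹)) :=
      { diffu := hE.diffu.comp_differentiableOn hexp
        diffv := hE.diffv.comp_differentiableOn hexp
        mem := fun z _ => hE.mem _ }
    obtain ⟨z3, hz3, hb3⟩ : ∃ z ∈ ball (0 : ℂ) 1 \ {0},
        eval (Sum.elim (u (Complex.exp z⁻¹)) (v (Complex.exp z⁻¹))) B ≠ 0 := by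
      have h1 : ∀ᶠ k in atTop, zk (Complex.log z2) k ∈ ball (0 : ℂ) 1 :=
        (zk_tendsto _).eventually (ball_mem_nhds _ one_pos)
      obtain ⟨k, hk1, hk2⟩ := (h1.and (zk_ev_ne (Complex.log z2))).exists
      refine ⟨_, ⟨hk1, hk2⟩, ?_⟩
      rw [exp_zk, Complex.exp_log hz2]
      exact hb2
    obtain ⟨ρ, hρ, u', v', hu', hv', h0, hs⟩ := hP _ _ hD ⟨z3, hz3, hb3⟩
    have hmem : (0 : ℂ) ∈ ball (0 : ℂ) ρ := mem_ball_self hρ
    have hcu' : ContinuousAt u' 0 :=
      (hu'.continuousOn).continuousAt (isOpen_ball.mem_nhds hmem)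
    have hcv' : ContinuousAt v' 0 :=
      (hv'.continuousOn).continuousAt (isOpen_ball.mem_nhds hmem)
    obtain ⟨z, z', hzz⟩ := hE.nonconst
    exact hzz (const_of hcu hcv hne (h0 0 hmem)
      (same_of_extends hne hρ hcu' hcv' (h0 0 hmem) hs) z z')
  · rintro ⟨B, D, hB, hB0, hP⟩
    refine ⟨B, D, hB, hB0, ?_⟩
    intro p s hG z hz
    have hE : Entire X m t w (fun z i => (p i).eval (Complex.exp z))
        (fun z j => (s j).eval (Complex.exp z)) :=
      { diffu := by
          rw [differentiable_pi]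
          intro i
          exact (p i).differentiable.comp Complex.differentiable_exp
        diffv := by
          rw [differentiable_pi]
          intro j
          exact (s j).differentiable.comp Complex.differentiable_exp
        mem := fun z => hG.mem _ (Complex.exp_ne_zero z)
        nonconst := by
          obtain ⟨y, y', hy, hy', h⟩ := hG.nonconst
          refine ⟨Complex.log y, Complex.log y', ?_⟩
          rw [Complex.exp_log hy, Complex.exp_log hy']
          exact h }
    have := hP _ _ hE (Complex.log z)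
    rwa [Complex.exp_log hz] at this

end Pool.Agent.Y496.KC
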